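import Pool.Agent.H49.W14D

namespace Pool.Agent.Results.MP_5e03f8_nt.WindowNonempty

open Pool.Agent.H49.W14

theorem result : (56 / 25 : ℝ) ∈ window := euc

end Pool.Agent.Results.MP_5e03f8_nt.WindowNonempty
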