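import Pool.Agent.H49.W14E

namespace Pool.Agent.Results.MP_5e03f8_nt.WindowSmaller

open Pool.Agent.H49.W14

theorem result : ∀ c : ℝ, 2553 / 1000 ≤ c → c ∉ window :=
  fun _ hc => not_euc hc

end Pool.Agent.Results.MP_5e03f8_nt.WindowSmaller
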